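import Pool.Agent.Helper19.HN.St

/-!
# HN, module NSP: the values `y i ∩ ζ` are not eventually constant
-/

namespace Pool.Agent.Helper8.HN.NSP

open Ordinal Cardinal ZFSet Order Pool.Agent.Helper73.HODC Pool.Agent.Helper73.HM
open Pool.Agent.Helper73.HE Pool.Agent.Helper73.HU Pool.Agent.Helper19.HN

theorem dp_cutEq_nsp {u : ZFSet.{0}} (hu : HOD u) (ξ : Ordinal.{0}) (i : ℕ) :
    DP (fun v => cut (v i) ξ = u) := by
  have h1 : DP (fun v => v 0 = cut (v (i + 1)) ξ) :=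
    dp_subst_at (Q := fun g v => v 0 = cut (v (i + 1)) g) (dp_cut (i + 2) 0 1) ξ
  have h2 : DP (fun v => u = cut (v i) ξ) :=
    dp_subst (Q := fun u v => u = cut (v i) ξ) hu h1
  exact h2.congr fun v => ⟨Eq.symm, Eq.symm⟩

theorem nsp (h : StLDF) : StNSP := by
  intro c A X z y hc hA hX hS ξ hξ u hu
  by_contra hcon
  push Not at hcon
  have hτ : ℵ₀ < c.ord.cof := hA.cof
  have hc' : ℵ₀ < c := by
    have h1 := hτ
    rwa [hc.cof_ord] at h1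
  obtain ⟨Eu, hEu⟩ : ∃ Eu : Set Ordinal.{0},
      Eu = {i | i ∈ EE' c.ord A z y ∧ cut (y i) ξ = u} := ⟨_, rfl⟩
  rw [← hEu] at hu
  have hmem : ∀ i ∈ Eu, i ∈ EE' c.ord A z y ∧ cut (y i) ξ = u := by
    intro i hi
    rw [hEu] at hi
    exact hi
  have hy : ∀ i ∈ Eu, y i ∈ hodPow i := fun i hi => (hmem i hi).1.2.1
  have huH : HOD u := by
    obtain ⟨a, ha, -, -⟩ := hu _ (club_univ (isSuccLimit_of_cof hτ))
    rw [← (hmem a ha).2]
    exact HOD_of_mem (cut_mem (hy a ha) ξ)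
  have hdp : DPs {d | Stat {i | i ∈ Eu ∧ d ∈ st (y i)} c.ord} := by
    have h1 := h c.ord A (Kz c.ord A z) y
      (fun g q v => lt g q (vv c.ord z g) ∧ cut q ξ = u ∧ (v 0).rank ∈ st q) hτ hA.dps
      (dp_Kz hA.dps c.ord hS.hod 0) hS.lub
      ((dp_ltvv c.ord hS.hod 0 1).and ((dp_cutEq_nsp huH ξ 1).and (DP.st 2 1)))
    refine h1.congr fun v => ?_
    constructor
    · intro h2
      refine h2.mono fun i hi _ => ?_
      obtain ⟨⟨h3, h4⟩, h5⟩ := hmem i hi.1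
      exact ⟨h3, h4.1, h4, h5, hi.2⟩
    · intro h2
      refine h2.mono fun i hi _ => ?_
      refine ⟨?_, hi.2.2.2.2⟩
      rw [hEu]
      exact ⟨⟨hi.1, hi.2.2.1⟩, hi.2.2.2.1⟩
  obtain ⟨x, hx⟩ : ∃ x, x = ordSet c.ord {d | Stat {i | i ∈ Eu ∧ d ∈ st (y i)} c.ord} :=
    ⟨_, rfl⟩
  have hxm : x ∈ hodPow c.ord := by
    rw [hx]
    exact mem_hodPow.2 ⟨ordSet_sub _ _, od_ordSet hdp _⟩
  have key : ∀ d < c.ord, AE c.ord Eu (fun i => d ∈ st (y i) ↔ d ∈ st x) := by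
    intro d hd
    obtain ⟨w, hw⟩ := hcon (d + 1) ((isSuccLimit_of_cof hτ).succ_lt hd)
    have h1 : AE c.ord Eu (fun i => cut (y i) (d + 1) = w) := by
      rw [AE_iff]
      intro h2
      refine hw (h2.mono fun i hi _ => ?_)
      exact ⟨hmem i hi.1, hi.2⟩
    have h2 : ∀ i ∈ Eu, cut (y i) (d + 1) = w → (d ∈ st (y i) ↔ d ∈ st w) := by
      intro i _ h3
      rw [← h3, st_cut]
      exact ⟨fun h4 => ⟨h4, Order.lt_succ d⟩, fun h4 => h4.1⟩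
    have h3 : d ∈ st x ↔ d ∈ st w := by
      rw [hx, mem_st_ordSet]
      constructor
      · rintro ⟨-, h4⟩
        obtain ⟨a, ha, -, ha'⟩ := stat_AE_exists hτ h4 (fun a ha => ha.1) h1
        exact (h2 a ha.1 ha').1 ha.2
      · intro h4
        exact ⟨hd, (h1.stat hτ hu).mono fun i hi _ => ⟨hi.1, (h2 i hi.1 hi.2).2 h4⟩⟩
    exact h1.mono fun i hi _ h4 => (h2 i hi h4).trans h3.symm
  have hall := AE_diag hc hc' (A := Eu) key
  obtain ⟨k, hk, hkx⟩ := hX.2 x hxm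
  obtain ⟨i, hi, -, h1, h2⟩ := stat_AE_exists hτ hu (fun a ha => ha)
    (hall.and hτ (AE_gt hτ Eu hk))
  refine hS.new i (hmem i hi).1 k h2 ?_
  rw [hkx]
  refine ext_hodPow (cut_mem hxm i) (hy i hi) fun a ha => ?_
  rw [st_cut, h1 a ha]
  exact ⟨fun h => h.1, fun h => ⟨h, ha⟩⟩

end Pool.Agent.Helper8.HN.NSP
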